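import Pool.Agent.K4H87.FM.Final

/-!
# Flag manifolds for which the ratio inequalities fail (MP_fc91b2_co, Q1: the answer is no)

All the definitions are in `Pool.Agent.K4H87.FM`: `faces G k` is the number of the cliques of `G` with `k`
vertices (`f_(k-1)` of the clique complex), `hnum`, `gnum`, `IsGamma` the `h`-, `g`- and `γ`-numbers,
`FlagManifold d G` says that the clique complex of `G` is a homology manifold of dimension `d - 1` over
every field, `joinCycles a` is the graph of the join of the cycles of lengths `a j`, `Balanced n a` says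
that the `a j` have sum `n` and pairwise differ by at most one.
-/

set_option autoImplicit false

namespace Pool.Agent.Results.MP_fc91b2_co.RatioFailures

open Pool.Agent.K4H87.FM

theorem result :
    -- `ρ_2 < ρ_3` for the `h`-, the `g`- and the `γ`-numbers, for all `r ≥ 3`
    (∀ r N : ℕ, 3 ≤ r → r ≤ N →
      ∃ (V : Type) (_ : Fintype V) (_ : LinearOrder V) (G : SimpleGraph V),
        Fintype.card V = 4 * r * N ∧ FlagManifold (2 * r) G ∧
        ∀ a : Fin r → ℕ, Balanced (Fintype.card V) a →
          (hnum (2 * r) (faces G) 2 : ℚ) / hnum (2 * r) (faces (joinCycles a)) 2 <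
            (hnum (2 * r) (faces G) 3 : ℚ) / hnum (2 * r) (faces (joinCycles a)) 3 ∧
          (gnum (2 * r) (faces G) 2 : ℚ) / gnum (2 * r) (faces (joinCycles a)) 2 <
            (gnum (2 * r) (faces G) 3 : ℚ) / gnum (2 * r) (faces (joinCycles a)) 3 ∧
          ∃ γ δ : ℕ → ℤ, IsGamma r (faces G) γ ∧ IsGamma r (faces (joinCycles a)) δ ∧
            (γ 2 : ℚ) / δ 2 < (γ 3 : ℚ) / δ 3) ∧
    -- connected manifolds with `ρ_3 < 0 < ρ_4` for the `γ`-numbers, for all `r ≥ 4`
    (∀ r N : ℕ, 4 ≤ r → 6 * r ≤ N →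
      ∃ (V : Type) (_ : Fintype V) (_ : LinearOrder V) (G : SimpleGraph V),
        Fintype.card V = 2 * N ∧ FlagManifold (2 * r) G ∧ G.Connected ∧
        ∀ a : Fin r → ℕ, Balanced (Fintype.card V) a →
          ∃ γ δ : ℕ → ℤ, IsGamma r (faces G) γ ∧ IsGamma r (faces (joinCycles a)) δ ∧
            (γ 3 : ℚ) / δ 3 < 0 ∧ 0 < (γ 4 : ℚ) / δ 4) :=
  ⟨disjoint_case, connected_case⟩

end Pool.Agent.Results.MP_fc91b2_co.RatioFailures
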